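import Pool.Agent.PCG.Up
import Pool.Agent.PCG.Four
import Pool.Agent.PCG.Low
import Pool.Agent.PCG.Greedy
import Pool.Agent.PCG.Sect

/-!
# MP_332d77_co: the growth of the packing number with the dimension

Let `P(d,t)` be the largest number of convex sets of width at least `t` which can be packed into the unit ball of
`ℝ^d`. The growth rate of `P(d,t)` in `d` is larger than two for every `t < 1`, and it tends to two as `t → 1`; it lies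
between `1 / t - 1 / 2` and `4 / t` for all `t ≤ 1`.
-/

open PCW

namespace Pool.Agent.Results.MP_332d77_co.Growth

theorem result :
    -- upper bounds, for every packing of `m` sets
    (∀ d : ℕ, 1 ≤ d → ∀ t : ℝ, 0 < t → ∀ m : ℕ, Pack d t m →
      (m : ℝ) ≤ (4 / t) ^ d ∧
      ∀ r : ℝ, 0 < r → r ≤ 1 / 10 → 1 - r ^ 6 ≤ t → (m : ℝ) ≤ 2 ^ d * (1 + 4 * r) ^ (d + 1)) ∧
    -- lower bounds
    (∀ d : ℕ, ∀ t : ℝ, 0 < t → t ≤ 1 → ∃ m : ℕ, Pack d t m ∧ (1 / t - 1 / 2) ^ d ≤ (m : ℝ) ∧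
      ⌊2 * Real.pi / Real.arcsin t⌋₊ ^ (d / 2) * 2 ^ (d % 2) ≤ m) ∧
    (∀ d k : ℕ, ∀ t : ℝ, t ≤ Real.cos (Real.pi / (4 * k + 6)) →
      ∃ m : ℕ, Pack d t m ∧ (2 : ℝ) ^ d * (1 + 1 / 2 ^ 2 ^ k) ^ (d / 2 ^ (k + 1)) ≤ (m : ℝ)) ∧
    (∀ t : ℝ, t < 1 → ∃ c : ℝ, 2 < c ∧ ∃ D : ℕ, ∀ d : ℕ, D ≤ d → ∃ m : ℕ, Pack d t m ∧ c ^ d ≤ (m : ℝ)) := by
  refine ⟨fun _ hd _ ht _ hP => ⟨PCG.four hd ht hP, fun _ h0 h1 h2 => PCG.up hd h0 h1 h2 hP⟩, ?_,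
    fun d k _ ht => (PCG.lower_explicit k d ht).imp fun _ h => ⟨h.1, h.2.le⟩, fun _ ht => PCG.lower_growth ht⟩
  intro d t ht ht1
  obtain ⟨m, hm, hm1⟩ := PCG.greedy (d := d) ht ht1
  have hs := PCG.lower_arcsin ht ht1 d
  rcases le_total m (⌊2 * Real.pi / Real.arcsin t⌋₊ ^ (d / 2) * 2 ^ (d % 2)) with h | h
  · exact ⟨_, hs, hm1.trans (by exact_mod_cast h), le_rfl⟩
  · exact ⟨m, hm, hm1, h⟩

end Pool.Agent.Results.MP_332d77_co.Growth
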