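import Pool.Agent.PCS.Rob
import Pool.Agent.PCW.Low

/-!
# MP_332d77_co: packing convex sets of width near one, all dimensions

For every `d ≥ 2` the largest number of convex sets of width at least `t` which can be packed into the unit ball of
`ℝ^d` is `2 ^ d` for all `t` with `1 - 1 / (2 * 4 ^ d * d ^ 4) < t ≤ 1`.
-/

open PCW

namespace Pool.Agent.Results.MP_332d77_co.NearOne

theorem result (d : ℕ) (hd : 2 ≤ d) (t : ℝ) (ht : 1 - 1 / (2 * 4 ^ d * d ^ 4) < t) (ht1 : t ≤ 1) :
    IsGreatest {m : ℕ | Pack d t m} (2 ^ d) :=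
  ⟨pack_two_pow ht1, fun _ hm => PCS.upper_exact hd ht hm⟩

end Pool.Agent.Results.MP_332d77_co.NearOne
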