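import Pool.Agent.PCS.Pla
import Pool.Agent.PCS.Eight

/-!
# MP_332d77_co: packing convex sets of given width into the unit disc

In the plane the largest number of convex sets of width at least `t` which can be packed into the unit disc is the
integer part of `2 * π / arcsin t`, for all `t` with `3 / 4 < t ≤ 1`. For `sin (π / 4) < t ≤ 73 / 100` this formula
fails: it gives at most seven, but eight convex sets of width at least `t` can be packed.
-/

open PCW

namespace Pool.Agent.Results.MP_332d77_co.Planar

theorem result :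
    (∀ t : ℝ, 3 / 4 < t → t ≤ 1 → IsGreatest {m : ℕ | Pack 2 t m} ⌊2 * Real.pi / Real.arcsin t⌋₊) ∧
    (∀ t : ℝ, Real.sin (Real.pi / 4) < t → t ≤ 73 / 100 →
      ⌊2 * Real.pi / Real.arcsin t⌋₊ < 8 ∧ Pack 2 t 8) :=
  ⟨fun _ ht ht1 => PCS.planar ht ht1, fun _ h1 h2 => PCS.planar_fails h1 h2⟩

end Pool.Agent.Results.MP_332d77_co.Planar
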