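import Pool.Agent.PST.Fin4

/-!
# MP_332d77_co: the order of the second term of `P(2,t)`

There is a constant `c > 0` such that, for every `0 < t ≤ 2`, the largest number `P(2,t)` of convex sets of width at least
`t` which can be packed into the unit disc lies between `√3 π / t² - 4 π / t` and `√3 π / t² - c / t`.
-/

open PCW

namespace Pool.Agent.Results.MP_332d77_co.SecondTerm

theorem result :
    ∃ c : ℝ, 0 < c ∧ ∀ t : ℝ, 0 < t → t ≤ 2 → ∃ P : ℕ, IsGreatest {m : ℕ | Pack 2 t m} P ∧
      Real.sqrt 3 * Real.pi / t ^ 2 - 4 * Real.pi / t ≤ P ∧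
      (P : ℝ) ≤ Real.sqrt 3 * Real.pi / t ^ 2 - c / t :=
  PST.second_term

end Pool.Agent.Results.MP_332d77_co.SecondTerm
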